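import Pool.Agent.H53.GR.Targets
import Pool.Agent.H68.GC.OLF0

/-!
# (LIM) the limit of Olšák families
-/

set_option autoImplicit false
set_option linter.unusedVariables false

namespace Pool.Agent.H42.GR

open Pool.Agent.H68.BP Pool.Agent.H58.SF Pool.Agent.H53.GC Pool.Agent.H53.NR Pool.Agent.H58.GR
open Pool.Agent.H53.GR Pool.Agent.H68.GC
open Classical

namespace LIM

variable {σ τ : Sig} {V : Type}

/-- the image of a structure under a map -/
def psh {j k : ℕ} (en : Fin j → Fin k) (t : Str τ (Fin j)) : Str τ (Fin k) :=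
  fun l z => ∃ z' : Fin (τ.ar l) → Fin j, (z = fun i => en (z' i)) ∧ t l z'

theorem psh_spl (𝔹 : Str τ V) {j k : ℕ} (en : Fin j → Fin k) (hen : Function.Injective en)
    (y : Fin k → V) (x : Fin j → V) (h : ∀ i, y (en i) = x i) :
    psh en (spl 𝔹 x) = res (Finset.univ.image en) (spl 𝔹 y) := by
  funext l z
  refine propext ⟨?_, ?_⟩
  · rintro ⟨z', rfl, h1, h2⟩
    refine ⟨fun i => Finset.mem_image_of_mem _ (Finset.mem_univ _), ?_, ?_⟩
    · simpa only [h] using h1
    · intro i i' hi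
      simp only [h] at hi
      exact congrArg en (h2 i i' hi)
  · rintro ⟨h0, h1, h2⟩
    have h3 : ∀ i, ∃ a, en a = z i := fun i => by
      obtain ⟨a, -, ha⟩ := Finset.mem_image.1 (h0 i)
      exact ⟨a, ha⟩
    choose z' hz' using h3
    have hz : z = fun i => en (z' i) := funext fun i => (hz' i).symm
    subst hz
    refine ⟨z', rfl, ?_, ?_⟩
    · simpa only [h] using h1
    · intro i i' hi
      refine hen (h2 i i' ?_)
      simp only [h]
      exact hi

theorem pull_res (𝔹 : Str τ V) {j k : ℕ} (en : Fin j → Fin k) (hen : Function.Injective en)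
    (y : Fin k → V) :
    pull (res (Finset.univ.image en) (spl 𝔹 y)) en = spl 𝔹 (fun i => y (en i)) := by
  funext l z
  refine propext ⟨?_, ?_⟩
  · rintro ⟨-, h1, h2⟩
    exact ⟨h1, fun i i' hi => hen (h2 i i' hi)⟩
  · rintro ⟨h1, h2⟩
    refine ⟨fun i => Finset.mem_image_of_mem _ (Finset.mem_univ _), h1, ?_⟩
    intro i i' hi
    simp only
    rw [h2 i i' hi]

/-- the sort given by an injective map -/
def srt {M j k : ℕ} (hj : j + 1 ≤ M) (en : Fin (j + 1) → Fin k) : So M k :=
  ⟨Finset.univ.image en, Finset.univ_nonempty.image en, by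
    refine Finset.card_image_le.trans ?_
    rw [Finset.card_univ, Fintype.card_fin]
    exact hj⟩

/-- the operation on structures with `j + 1` elements given by a family and an injective map -/
def Gop {M j k : ℕ} (F : So M k → (Fin 6 → Str τ (Fin k)) → Str τ (Fin k)) (hj : j + 1 ≤ M)
    (en : Fin (j + 1) → Fin k) (t : Fin 6 → Str τ (Fin (j + 1))) : Str τ (Fin (j + 1)) :=
  pull (F (srt hj en) (fun c => psh en (t c))) en

theorem Gop_pat {M j k : ℕ} {F : So M k → (Fin 6 → Str τ (Fin k)) → Str τ (Fin k)}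
    (hF : ∀ e x y r, F e (pat r x y) = F e (pat 0 x y)) (hj : j + 1 ≤ M)
    (en : Fin (j + 1) → Fin k) (x y : Str τ (Fin (j + 1))) (r : Fin 3) :
    Gop F hj en (pat r x y) = Gop F hj en (pat 0 x y) := by
  unfold Gop
  have h : ∀ r : Fin 3, (fun c => psh en (pat r x y c)) = pat r (psh en x) (psh en y) :=
    fun r => funext fun c => pat_map (psh en) r x y c
  rw [h, h, hF]

/-- the second component, for elements whose first component is `j` -/
noncomputable def cst {M : ℕ} (j : Fin M) (x : Dm τ M) : Str τ (Fin (j + 1)) :=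
  if h : x.1 = j then h ▸ x.2 else fun _ _ => False

theorem cst_mk {M : ℕ} (j : Fin M) (t : Str τ (Fin (j + 1))) : cst j (⟨j, t⟩ : Dm τ M) = t := by
  unfold cst
  rw [dif_pos rfl]

/-- the operation -/
noncomputable def oo {M : ℕ} (hM : 1 ≤ M)
    (g : (j : Fin M) → (Fin 6 → Str τ (Fin (j + 1))) → Str τ (Fin (j + 1)))
    (d : Fin 6 → Dm τ M) : Dm τ M :=
  if ∀ c, (d c).1 = (d 0).1 then ⟨(d 0).1, g (d 0).1 (fun c => cst (d 0).1 (d c))⟩
  else ⟨⟨0, hM⟩, fun _ _ => False⟩

theorem oo_mk {M : ℕ} (hM : 1 ≤ M)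
    (g : (j : Fin M) → (Fin 6 → Str τ (Fin (j + 1))) → Str τ (Fin (j + 1))) (j : Fin M)
    (t : Fin 6 → Str τ (Fin (j + 1))) : oo hM g (fun c => ⟨j, t c⟩) = ⟨j, g j t⟩ := by
  unfold oo
  rw [if_pos fun c => rfl]
  simp only [cst_mk]

theorem oo_pat {M : ℕ} (hM : 1 ≤ M)
    (g : (j : Fin M) → (Fin 6 → Str τ (Fin (j + 1))) → Str τ (Fin (j + 1)))
    (hg : ∀ j x y r, g j (pat r x y) = g j (pat 0 x y)) (x y : Dm τ M) (r : Fin 3) :
    oo hM g (pat r x y) = oo hM g (pat 0 x y) := by
  by_cases h : x.1 = y.1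
  · obtain ⟨j, s⟩ := x
    obtain ⟨j', t⟩ := y
    dsimp only at h
    subst h
    have h1 : ∀ r : Fin 3, (pat r (⟨j, s⟩ : Dm τ M) ⟨j, t⟩) = fun c => ⟨j, pat r s t c⟩ :=
      fun r => funext fun c => (pat_map (fun u => (⟨j, u⟩ : Dm τ M)) r s t c).symm
    rw [h1, h1, oo_mk, oo_mk, hg]
  · have h1 : ∀ r : Fin 3, ¬ ∀ c, (pat r x y c).1 = (pat r x y 0).1 := by
      intro r h2
      have h3 := h2 1
      have h4 := h2 2
      have h5 := h2 3
      fin_cases r
      · exact h h4.symm
      · exact h h3.symm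
      · exact h h3
    unfold oo
    rw [if_neg (h1 r), if_neg (h1 0)]

instance {n : ℕ} : Finite (Str τ (Fin n)) := by
  unfold Str
  infer_instance

/-- the extension of an increasing map -/
def ext {j M b : ℕ} (f : Fin (j + 1) → Fin b) (i : Fin M) : Fin (b + M) :=
  if h : (i : ℕ) < j + 1 then Fin.castAdd M (f ⟨i, h⟩) else Fin.natAdd b i

theorem ext_mono {j M b : ℕ} (f : Fin (j + 1) → Fin b) (hf : StrictMono f) :
    StrictMono (ext f : Fin M → Fin (b + M)) := by
  intro i i' hi
  have hi' : (i : ℕ) < i' := hi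
  unfold ext
  split_ifs with h1 h2 h2
  · have h3 : f ⟨i, h1⟩ < f ⟨i', h2⟩ := hf hi'
    exact h3
  · rw [Fin.lt_def]
    simp only [Fin.val_castAdd, Fin.val_natAdd]
    omega
  · omega
  · rw [Fin.lt_def]
    simp only [Fin.val_natAdd]
    omega

end LIM

open LIM

theorem pf_LIM (hR : Pool.Agent.H53.NR.T_RSS) : Pool.Agent.H53.GR.T_LIM := by
  intro σ τ V 𝔸 𝔹 M hM hV hFam
  obtain ⟨b, hb⟩ : ∃ b : ℕ, ∀ s, arP σ M s ≤ b := by
    obtain ⟨b, hb⟩ := (Set.finite_range (arP σ M)).bddAbove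
    exact ⟨b, fun s => hb ⟨s, rfl⟩⟩
  obtain ⟨k, hk⟩ := hR M (b + M)
    ((j : Fin M) → (Fin 6 → Str τ (Fin (j + 1))) → Str τ (Fin (j + 1)))
  obtain ⟨F, hF, hFp⟩ := hFam k
  have hj : ∀ j : Fin M, (j : ℕ) + 1 ≤ M := fun j => j.2
  obtain ⟨β, hβ, hχ⟩ := hk fun z j =>
    Gop F (hj j) (fun i => z (Fin.castLE (hj j) i))
  -- the operation
  let g : (j : Fin M) → (Fin 6 → Str τ (Fin (j + 1))) → Str τ (Fin (j + 1)) := fun j =>
    Gop F (hj j) (fun i => β (Fin.natAdd b (Fin.castLE (hj j) i)))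
  have hg : ∀ (j : Fin M) (f : Fin (j + 1) → Fin b), StrictMono f →
      g j = Gop F (hj j) (fun i => β (Fin.castAdd M (f i))) := by
    intro j f hf
    have h1 := hχ (fun i => Fin.natAdd b i) (ext f) (Fin.strictMono_natAdd b) (ext_mono f hf)
    have h2 := congrFun h1 j
    refine h2.trans ?_
    congr 1
    funext i
    change β (ext f (Fin.castLE (hj j) i)) = _
    congr 1
    unfold ext
    rw [dif_pos (show ((Fin.castLE (hj j) i : Fin M) : ℕ) < j + 1 from i.2)]
    rfl
  refine ⟨oo hM g, ?_, ?_⟩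
  · unfold tmpl
    rw [poly_strOn]
    rintro ⟨s, t⟩ q hq
    choose xx hxx hxt hxq using hq
    dsimp only at hxx hxt hxq ⊢
    -- the vertices
    let γ : Fin (arP σ M s) → Fin k := fun a => β (Fin.castAdd M (Fin.castLE (hb s) a))
    have hγ : StrictMono γ := fun a a' h => hβ (by
      have h' : (a : ℕ) < a' := h
      rw [Fin.lt_def]
      exact h')
    obtain ⟨v₀⟩ := hV
    let y : Fin 6 → Fin k → V := fun c i =>
      if h : ∃ a, γ (t a) = i then xx c h.choose else v₀
    have hy : ∀ c a, y c (γ (t a)) = xx c a := by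
      intro c a
      have h : ∃ a', γ (t a') = γ (t a) := ⟨a, rfl⟩
      change (if h : ∃ a', γ (t a') = γ (t a) then xx c h.choose else v₀) = _
      rw [dif_pos h]
      exact hxt c _ _ (hγ.injective h.choose_spec)
    have hp := hF ⟨s, fun a => γ (t a)⟩ (fun c e => res e.1 (spl 𝔹 (y c))) (fun c => by
      refine ⟨y c, ?_, fun e _ => rfl⟩
      have h1 : (fun a => y c (γ (t a))) = xx c := funext (hy c)
      change relP 𝔸 M s (fun a => y c (γ (t a)))
      rw [h1]
      exact hxx c)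
    obtain ⟨y', hy', hye⟩ := hp
    refine ⟨fun a => y' (γ (t a)), hy', ?_, ?_⟩
    · intro a a' h
      simp only [h]
    · intro j α hα
      have h1 : (fun c => q c ⟨j, α⟩) = fun c => ⟨j, spl 𝔹 (fun i => xx c (α i))⟩ :=
        funext fun c => hxq c j α hα
      rw [h1, oo_mk]
      have hmono : StrictMono (fun i => Fin.castLE (hb s) (t (α i))) := by
        intro i i' h
        have h' := hα h
        exact h'
      rw [hg j (fun i => Fin.castLE (hb s) (t (α i))) hmono]
      have hen : Function.Injective (fun i => γ (t (α i))) := fun i i' h =>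
        hα.injective (hγ.injective h)
      have h2 : ∀ c, psh (fun i => γ (t (α i))) (spl 𝔹 (fun i => xx c (α i))) =
          res (Finset.univ.image (fun i => γ (t (α i)))) (spl 𝔹 (y c)) := fun c =>
        psh_spl 𝔹 _ hen (y c) _ fun i => hy c (α i)
      have h3 : Gop F (hj j) (fun i => γ (t (α i)))
          (fun c => spl 𝔹 (fun i => xx c (α i))) = spl 𝔹 (fun i => y' (γ (t (α i)))) := by
        unfold Gop
        simp only [h2]
        have h4 := hye (srt (hj j) (fun i => γ (t (α i)))) (by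
          intro i hi
          obtain ⟨a, -, ha⟩ := Finset.mem_image.1 hi
          exact ⟨α a, ha⟩)
        dsimp only at h4
        change pull (F (srt (hj j) (fun i => γ (t (α i))))
          (fun c => res (srt (hj j) (fun i => γ (t (α i)))).1 (spl 𝔹 (y c)))) _ = _
        rw [h4]
        exact pull_res 𝔹 _ hen y'
      exact congrArg (fun u => (⟨j, u⟩ : Dm τ M)) h3
  · intro x y
    have h := oo_pat hM g (fun j x y r => Gop_pat hFp (hj j) _ x y r) x y
    exact ⟨(h 1).symm, (h 1).trans (h 2).symm⟩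

end Pool.Agent.H42.GR
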